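import Pool.Agent.W796.PH.Defs2

set_option autoImplicit false

/-!
Transfer of the decay estimate from the complex plane to the Euclidean plane.
-/

namespace Pool.Agent.W368.PH.Trans

open MeasureTheory Metric Set Filter Topology Complex
open scoped ENNReal ContDiff ComplexConjugate
open Pool.Agent.W796.PH

/-- the identification of the complex plane with the Euclidean plane -/
noncomputable def e : ℂ ≃ₗᵢ[ℝ] E2 := Complex.orthonormalBasisOneI.repr

lemma emp : MeasurePreserving (e : ℂ → E2) volume volume := e.measurePreserving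

lemma eemb : MeasurableEmbedding (e : ℂ → E2) := e.toHomeomorph.measurableEmbedding

lemma preball (x₀ : E2) (R : ℝ) : (e : ℂ → E2) ⁻¹' ball x₀ R = ball (e.symm x₀) R := by
  ext z
  simp only [mem_preimage, mem_ball]
  rw [show dist (e z) x₀ = dist (e z) (e (e.symm x₀)) by rw [e.apply_symm_apply],
    e.dist_map]

lemma avg {F : Type*} [NormedAddCommGroup F] [NormedSpace ℝ F] (f : E2 → F) (x₀ : E2) (R : ℝ) :
    ⨍ x in ball x₀ R, f x = ⨍ z in ball (e.symm x₀) R, f (e z) := by
  rw [setAverage_eq, setAverage_eq, ← preball, emp.setIntegral_preimage_emb eemb]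
  have h1 : (volume : Measure ℂ).real ((e : ℂ → E2) ⁻¹' ball x₀ R)
      = (volume : Measure E2).real (ball x₀ R) := by
    unfold Measure.real
    rw [emp.measure_preimage_emb eemb]
  rw [h1]

lemma flux_e (p : ℝ) (z : ℂ) : flux p (e z) = e (pw (p - 2) z) := by
  unfold flux pw
  rw [e.norm_map, ← Complex.real_smul, e.map_smul]

lemma avg_e (p : ℝ) (G : ℂ → ℂ) (z₀ : ℂ) (R : ℝ) :
    ⨍ z in ball z₀ R, e (pw (p - 2) (G z)) = e (⨍ z in ball z₀ R, pw (p - 2) (G z)) := by
  rw [setAverage_eq, setAverage_eq, e.map_smul]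
  congr 1
  exact e.toContinuousLinearEquiv.integral_comp_comm (μ := volume.restrict (ball z₀ R))
    (fun z => pw (p - 2) (G z))

lemma fderiv_e (φ : ℂ → ℝ) (hφ : ContDiff ℝ ∞ φ) (z v : ℂ) :
    fderiv ℝ (fun x : E2 => φ (e.symm x)) (e z) (e v) = fderiv ℝ φ z v := by
  have h1 : HasFDerivAt (fun x : E2 => e.symm x)
      ((e.symm.toContinuousLinearEquiv : E2 ≃L[ℝ] ℂ) : E2 →L[ℝ] ℂ) (e z) :=
    (e.symm.toContinuousLinearEquiv : E2 ≃L[ℝ] ℂ).hasFDerivAt
  have h2 : HasFDerivAt φ (fderiv ℝ φ z) (e.symm (e z)) := by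
    rw [e.symm_apply_apply]
    exact (hφ.differentiable (by simp) z).hasFDerivAt
  have h3 := h2.comp (e z) h1
  have h4 : fderiv ℝ (fun x : E2 => φ (e.symm x)) (e z)
      = (fderiv ℝ φ z).comp ((e.symm.toContinuousLinearEquiv : E2 ≃L[ℝ] ℂ) : E2 →L[ℝ] ℂ) :=
    h3.fderiv
  rw [h4]
  simp

lemma test (φ : ℂ → ℝ) (Ω : Set E2) (hφ : ContDiff ℝ ∞ φ) (hc : HasCompactSupport φ)
    (hs : tsupport φ ⊆ (e : ℂ → E2) ⁻¹' Ω) :
    ContDiff ℝ ∞ (fun x : E2 => φ (e.symm x)) ∧
    HasCompactSupport (fun x : E2 => φ (e.symm x)) ∧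
    tsupport (fun x : E2 => φ (e.symm x)) ⊆ Ω := by
  refine ⟨hφ.comp e.symm.toContinuousLinearEquiv.contDiff, ?_, ?_⟩
  · exact hc.comp_homeomorph e.symm.toHomeomorph
  · have h1 : tsupport (fun x : E2 => φ (e.symm x)) ⊆ e.symm ⁻¹' tsupport φ :=
      tsupport_comp_subset_preimage φ e.symm.continuous
    intro x hx
    have h2 := hs (h1 hx)
    simpa using h2

lemma fderiv_zero (φ : ℂ → ℝ) (S : Set ℂ) (hs : tsupport φ ⊆ S) (z : ℂ) (hz : z ∉ S) :
    fderiv ℝ φ z = 0 := by
  by_contra hne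
  exact hz (hs (support_fderiv_subset ℝ hne))

lemma fn_zero (φ : ℂ → ℝ) (S : Set ℂ) (hs : tsupport φ ⊆ S) (z : ℂ) (hz : z ∉ S) :
    φ z = 0 := by
  by_contra hne
  exact hz (hs (subset_tsupport φ hne))

lemma restr (K : Set ℂ) :
    MeasurePreserving (e : ℂ → E2) (volume.restrict K) (volume.restrict (e '' K)) :=
  emp.restrict_image_emb eemb K

theorem pharm (p : ℝ) (Ω : Set E2) (h : E2 → ℝ) (g : E2 → E2) (H : IsPHarmonic p Ω h g) :
    PHarm p ((e : ℂ → E2) ⁻¹' Ω) (fun z => h (e z)) (fun z => e.symm (g (e z))) := by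
  constructor
  · intro K hK hKΩ
    have h1 := H.hloc (e '' K) (hK.image e.continuous) (by
      rintro _ ⟨z, hz, rfl⟩
      exact hKΩ hz)
    exact h1.comp_measurePreserving (restr K)
  · intro K hK hKΩ
    have h1 := H.gloc (e '' K) (hK.image e.continuous) (by
      rintro _ ⟨z, hz, rfl⟩
      exact hKΩ hz)
    have h2 := h1.comp_measurePreserving (restr K)
    exact (e.symm.toContinuousLinearEquiv : E2 ≃L[ℝ] ℂ).toContinuousLinearMap.comp_memLp' h2
  · intro φ hφ hc hs v
    obtain ⟨t1, t2, t3⟩ := test φ Ω hφ hc hs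
    have h1 := H.weak (fun x : E2 => φ (e.symm x)) t1 t2 t3 (e v)
    rw [← emp.setIntegral_preimage_emb eemb, ← emp.setIntegral_preimage_emb eemb] at h1
    rw [setIntegral_eq_integral_of_forall_compl_eq_zero,
      setIntegral_eq_integral_of_forall_compl_eq_zero] at h1
    · have e1 : ∀ z : ℂ, h (e z) * fderiv ℝ (fun x : E2 => φ (e.symm x)) (e z) (e v)
          = h (e z) * fderiv ℝ φ z v := by
        intro z
        rw [fderiv_e φ hφ]
      have e2 : ∀ z : ℂ, inner ℝ (g (e z)) (e v) * φ (e.symm (e z))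
          = φ z * (conj (e.symm (g (e z))) * v).re := by
        intro z
        rw [e.symm_apply_apply, mul_comm (conj (e.symm (g (e z)))) v, ← Complex.inner, mul_comm]
        congr 1
        rw [show inner ℝ (e.symm (g (e z))) v = inner ℝ (e (e.symm (g (e z)))) (e v) by
          rw [e.inner_map_map], e.apply_symm_apply]
      simp only [e1, e2] at h1
      exact h1
    · intro z hz
      rw [e.symm_apply_apply, fn_zero φ _ hs z hz, mul_zero]
    · intro z hz
      rw [fderiv_e φ hφ, fderiv_zero φ _ hs z hz]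
      simp
  · intro φ hφ hc hs
    obtain ⟨t1, t2, t3⟩ := test φ Ω hφ hc hs
    have h1 := H.eq (fun x : E2 => φ (e.symm x)) t1 t2 t3
    rw [← emp.setIntegral_preimage_emb eemb] at h1
    have e1 : ∀ z : ℂ, inner ℝ (flux p (g (e z)))
        (gradient (fun x : E2 => φ (e.symm x)) (e z))
        = fderiv ℝ φ z (pw (p - 2) (e.symm (g (e z)))) := by
      intro z
      rw [real_inner_comm]
      unfold gradient
      rw [InnerProductSpace.toDual_symm_apply, ← fderiv_e φ hφ, ← flux_e, e.apply_symm_apply]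
    simp only [e1] at h1
    rw [setIntegral_eq_integral_of_forall_compl_eq_zero] at h1
    · exact h1
    · intro z hz
      rw [fderiv_zero φ _ hs z hz]
      simp

theorem main : S_Trans := by
  intro p c hp hc hD Ω h g hΩ H x₀ R hR hb hI θ h0 h1
  have hpre : ball (e.symm x₀) R ⊆ (e : ℂ → E2) ⁻¹' Ω := by
    rw [← preball]
    exact preimage_mono hb
  have hfl : ∀ z : ℂ, flux p (g (e z)) = e (pw (p - 2) (e.symm (g (e z)))) := by
    intro z
    rw [← flux_e, e.apply_symm_apply]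
  have hI' : IntegrableOn (fun z => pw (p - 2) (e.symm (g (e z)))) (ball (e.symm x₀) R) := by
    rw [← preball]
    have h2 : IntegrableOn ((fun x => flux p (g x)) ∘ e) ((e : ℂ → E2) ⁻¹' ball x₀ R) :=
      (emp.integrableOn_comp_preimage eemb).mpr hI
    have h3 : IntegrableOn (fun z => e.symm (flux p (g (e z)))) ((e : ℂ → E2) ⁻¹' ball x₀ R) :=
      (e.symm.toContinuousLinearEquiv : E2 ≃L[ℝ] ℂ).toContinuousLinearMap.integrable_comp h2
    have h4 : (fun z => e.symm (flux p (g (e z)))) = fun z => pw (p - 2) (e.symm (g (e z))) := by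
      funext z
      rw [hfl, e.symm_apply_apply]
    rw [h4] at h3
    exact h3
  have key := hD ((e : ℂ → E2) ⁻¹' Ω) (fun z => h (e z)) (fun z => e.symm (g (e z)))
    (hΩ.preimage e.continuous) (pharm p Ω h g H) (e.symm x₀) R hR hpre hI' θ h0 h1
  have tr : ∀ ρ : ℝ, ⨍ x in ball x₀ ρ, ‖flux p (g x) - ⨍ y in ball x₀ ρ, flux p (g y)‖
      = ⨍ z in ball (e.symm x₀) ρ, ‖pw (p - 2) (e.symm (g (e z))) -
        ⨍ w in ball (e.symm x₀) ρ, pw (p - 2) (e.symm (g (e w)))‖ := by
    intro ρ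
    rw [avg, avg]
    simp only [hfl]
    rw [avg_e p (fun z => e.symm (g (e z)))]
    simp only [← map_sub, e.norm_map]
  rw [tr, tr]
  exact key

end Pool.Agent.W368.PH.Trans

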